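import Mathlib

/-!
# Dyadic model of the hyperbolic cross multipliers (MP_a22eb9_an): definitions
-/

set_option autoImplicit false

namespace Pool.Agent.helper18.HC

open Finset

/-- The dyadic intervals of length `2^-K` in `[0,1)`, given by their binary digits. -/
abbrev Dy (K : ℕ) : Type := Fin K → Bool

/-- The (cells of the) dyadic interval of length `2^-j` containing `x`. -/
def cyl {K : ℕ} (j : ℕ) (x : Dy K) : Finset (Dy K) :=
  univ.filter fun x' => ∀ i : Fin K, i.val < j → x' i = x i

variable {𝕜 : Type} [Field 𝕜] {K L : ℕ}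

/-- Average over dyadic intervals of length `2^-j` in the first variable. -/
noncomputable def E1 (j : ℕ) (f : Dy K → Dy L → 𝕜) : Dy K → Dy L → 𝕜 :=
  fun x y => (∑ x' ∈ cyl j x, f x' y) / ((cyl j x).card : 𝕜)

/-- Average over dyadic intervals of length `2^-k` in the second variable. -/
noncomputable def E2 (k : ℕ) (f : Dy K → Dy L → 𝕜) : Dy K → Dy L → 𝕜 :=
  fun x y => (∑ y' ∈ cyl k y, f x y') / ((cyl k y).card : 𝕜)

/-- Martingale differences in the first variable (projection onto the frequencies of size
about `2^j`). -/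
noncomputable def D1 (j : ℕ) (f : Dy K → Dy L → 𝕜) : Dy K → Dy L → 𝕜 :=
  match j with
  | 0 => E1 0 f
  | j + 1 => fun x y => E1 (j + 1) f x y - E1 j f x y

/-- Martingale differences in the second variable. -/
noncomputable def D2 (k : ℕ) (f : Dy K → Dy L → 𝕜) : Dy K → Dy L → 𝕜 :=
  match k with
  | 0 => E2 0 f
  | k + 1 => fun x y => E2 (k + 1) f x y - E2 k f x y

/-- The hyperbolic partial sum: the sum of `D1 j (D2 k f)` over `j + k ≤ n`, that is the
projection onto the dyadic hyperbolic cross. -/
noncomputable def HypSum (n : ℕ) (f : Dy K → Dy L → 𝕜) : Dy K → Dy L → 𝕜 :=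
  fun x y => ∑ j ∈ range (K + 1), ∑ k ∈ range (L + 1),
    if j + k ≤ n then D1 j (D2 k f) x y else 0

end Pool.Agent.helper18.HC
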