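import Mathlib

/-!
# The Lyapunov function for vector valued dyadic martingales

`G lam x q = (q / lam) log ∑ exp (± lam x_i / q)`.
-/

set_option autoImplicit false

namespace Pool.Agent.helper18.HC

open Finset Real

variable {ι : Type} [Fintype ι] [Nonempty ι]

/-- the vector `x` with both signs -/
def sg (x : ι → ℝ) (p : ι × Bool) : ℝ := if p.2 then x p.1 else -x p.1

/-- the sum of the exponentials -/
noncomputable def A (lam : ℝ) (x : ι → ℝ) (q : ℝ) : ℝ := ∑ p : ι × Bool, exp (lam * sg x p / q)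

/-- the smoothed maximum -/
noncomputable def G (lam : ℝ) (x : ι → ℝ) (q : ℝ) : ℝ := q / lam * log (A lam x q)

theorem A_pos (lam : ℝ) (x : ι → ℝ) (q : ℝ) : 0 < A lam x q := by
  unfold A
  exact Finset.sum_pos (fun p _ => exp_pos _) Finset.univ_nonempty

variable {lam q : ℝ}

theorem G_ge (hl : 0 < lam) (hq : 0 < q) (x : ι → ℝ) (i : ι) : |x i| ≤ G lam x q := by
  obtain ⟨b, hb⟩ : ∃ b : Bool, sg x (i, b) = |x i| := by
    rcases abs_cases (x i) with ⟨h, _⟩ | ⟨h, _⟩
    · exact ⟨true, by simp [sg, h]⟩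
    · exact ⟨false, by simp [sg, h]⟩
  have h1 : exp (lam * sg x (i, b) / q) ≤ A lam x q :=
    Finset.single_le_sum (f := fun p : ι × Bool => exp (lam * sg x p / q))
      (fun p _ => (exp_pos _).le) (Finset.mem_univ (i, b))
  have h2 : lam * |x i| / q ≤ log (A lam x q) := by
    rw [← hb]
    rw [Real.le_log_iff_exp_le (A_pos _ _ _)]
    exact h1
  unfold G
  calc |x i| = q / lam * (lam * |x i| / q) := by field_simp
    _ ≤ q / lam * log (A lam x q) := mul_le_mul_of_nonneg_left h2 (by positivity)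

theorem G_nonneg (hl : 0 < lam) (hq : 0 < q) (x : ι → ℝ) : 0 ≤ G lam x q := by
  obtain ⟨i⟩ := (inferInstance : Nonempty ι)
  exact (abs_nonneg _).trans (G_ge hl hq x i)

theorem abs_sg (d : ι → ℝ) (p : ι × Bool) : |sg d p| = |d p.1| := by
  unfold sg
  split_ifs
  · rfl
  · rw [abs_neg]

theorem sg_add (x d : ι → ℝ) (p : ι × Bool) : sg (x + d) p = sg x p + sg d p := by
  unfold sg
  split_ifs
  · rfl
  · simp only [Pi.add_apply]
    ring

theorem sg_sub (x d : ι → ℝ) (p : ι × Bool) : sg (x - d) p = sg x p - sg d p := by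
  unfold sg
  split_ifs
  · rfl
  · simp only [Pi.sub_apply]
    ring

theorem G_lip (hl : 0 < lam) (hq : 0 < q) (x d : ι → ℝ) {δ : ℝ} (hd : ∀ i, |d i| ≤ δ) :
    G lam (x + d) q ≤ G lam x q + δ := by
  have h1 : A lam (x + d) q ≤ exp (lam * δ / q) * A lam x q := by
    unfold A
    rw [Finset.mul_sum]
    apply Finset.sum_le_sum
    intro p _
    rw [← Real.exp_add]
    apply Real.exp_le_exp.mpr
    rw [sg_add]
    have h2 : sg d p ≤ δ := (le_abs_self _).trans (by rw [abs_sg]; exact hd _)
    rw [← add_div, ← mul_add]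
    apply div_le_div_of_nonneg_right _ hq.le
    apply mul_le_mul_of_nonneg_left _ hl.le
    linarith
  have h2 : log (A lam (x + d) q) ≤ lam * δ / q + log (A lam x q) := by
    calc log (A lam (x + d) q) ≤ log (exp (lam * δ / q) * A lam x q) :=
          Real.log_le_log (A_pos _ _ _) h1
      _ = lam * δ / q + log (A lam x q) := by
        rw [Real.log_mul (exp_pos _).ne' (A_pos _ _ _).ne', Real.log_exp]
  unfold G
  calc q / lam * log (A lam (x + d) q) ≤ q / lam * (lam * δ / q + log (A lam x q)) :=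
        mul_le_mul_of_nonneg_left h2 (by positivity)
    _ = q / lam * log (A lam x q) + δ := by
      field_simp
      ring

theorem G_avg (hl : 0 < lam) (hq : 0 < q) (x d : ι → ℝ) {δ : ℝ} (hd : ∀ i, |d i| ≤ δ) :
    (G lam (x + d) q + G lam (x - d) q) / 2 ≤ G lam x q + lam * δ ^ 2 / (2 * q) := by
  have h1 : (A lam (x + d) q + A lam (x - d) q) / 2 ≤
      exp ((lam * δ / q) ^ 2 / 2) * A lam x q := by
    unfold A
    rw [← Finset.sum_add_distrib, Finset.sum_div, Finset.mul_sum]
    apply Finset.sum_le_sum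
    intro p _
    have e1 : (exp (lam * sg (x + d) p / q) + exp (lam * sg (x - d) p / q)) / 2 =
        cosh (lam * sg d p / q) * exp (lam * sg x p / q) := by
      rw [Real.cosh_eq, sg_add, sg_sub]
      have e2 : lam * (sg x p + sg d p) / q = lam * sg d p / q + lam * sg x p / q := by ring
      have e3 : lam * (sg x p - sg d p) / q = -(lam * sg d p / q) + lam * sg x p / q := by ring
      rw [e2, e3, Real.exp_add, Real.exp_add]
      ring
    rw [e1]
    apply mul_le_mul_of_nonneg_right _ (exp_pos _).le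
    refine (cosh_le_exp_half_sq _).trans (Real.exp_le_exp.mpr ?_)
    have h3 : |lam * sg d p / q| ≤ lam * δ / q := by
      rw [abs_div, abs_mul, abs_of_pos hl, abs_of_pos hq]
      apply div_le_div_of_nonneg_right _ hq.le
      apply mul_le_mul_of_nonneg_left _ hl.le
      rw [abs_sg]
      exact hd _
    have h4 : (lam * sg d p / q) ^ 2 ≤ (lam * δ / q) ^ 2 := by
      rw [← sq_abs]
      exact pow_le_pow_left₀ (abs_nonneg _) h3 2
    linarith
  have ha := A_pos lam (x + d) q
  have hb := A_pos lam (x - d) q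
  have hc := A_pos lam x q
  have h2 : (log (A lam (x + d) q) + log (A lam (x - d) q)) / 2 ≤
      (lam * δ / q) ^ 2 / 2 + log (A lam x q) := by
    have h3 : (log (A lam (x + d) q) + log (A lam (x - d) q)) / 2 ≤
        log ((A lam (x + d) q + A lam (x - d) q) / 2) := by
      have h4 : A lam (x + d) q * A lam (x - d) q ≤
          ((A lam (x + d) q + A lam (x - d) q) / 2) ^ 2 := by
        nlinarith [sq_nonneg (A lam (x + d) q - A lam (x - d) q)]
      have h5 := Real.log_le_log (mul_pos ha hb) h4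
      rw [Real.log_mul ha.ne' hb.ne', Real.log_pow] at h5
      push_cast at h5
      linarith
    refine h3.trans ?_
    calc log ((A lam (x + d) q + A lam (x - d) q) / 2) ≤
          log (exp ((lam * δ / q) ^ 2 / 2) * A lam x q) :=
          Real.log_le_log (by positivity) h1
      _ = (lam * δ / q) ^ 2 / 2 + log (A lam x q) := by
        rw [Real.log_mul (exp_pos _).ne' hc.ne', Real.log_exp]
  unfold G
  calc (q / lam * log (A lam (x + d) q) + q / lam * log (A lam (x - d) q)) / 2
      = q / lam * ((log (A lam (x + d) q) + log (A lam (x - d) q)) / 2) := by ring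
    _ ≤ q / lam * ((lam * δ / q) ^ 2 / 2 + log (A lam x q)) :=
      mul_le_mul_of_nonneg_left h2 (by positivity)
    _ = q / lam * log (A lam x q) + lam * δ ^ 2 / (2 * q) := by
      field_simp
      ring

theorem G_conv (hl : 0 < lam) (hq : 0 < q) (x d : ι → ℝ) :
    G lam x q ≤ (G lam (x + d) q + G lam (x - d) q) / 2 := by
  have ha := A_pos lam (x + d) q
  have hb := A_pos lam (x - d) q
  have hc := A_pos lam x q
  have h1 : A lam x q ^ 2 ≤ A lam (x + d) q * A lam (x - d) q := by
    have h2 := Finset.sum_mul_sq_le_sq_mul_sq (univ : Finset (ι × Bool))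
      (fun p => exp (lam * sg (x + d) p / q / 2)) (fun p => exp (lam * sg (x - d) p / q / 2))
    have e1 : ∀ p : ι × Bool, exp (lam * sg (x + d) p / q / 2) * exp (lam * sg (x - d) p / q / 2) =
        exp (lam * sg x p / q) := by
      intro p
      rw [← Real.exp_add, sg_add, sg_sub]
      congr 1
      ring
    have e2 : ∀ z : ℝ, exp (z / 2) ^ 2 = exp z := by
      intro z
      rw [← Real.exp_nat_mul]
      congr 1
      push_cast
      ring
    simp only [e1, e2] at h2
    exact h2
  have h2 : 2 * log (A lam x q) ≤ log (A lam (x + d) q) + log (A lam (x - d) q) := by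
    rw [← Real.log_mul ha.ne' hb.ne']
    have := Real.log_le_log (by positivity) h1
    rw [Real.log_pow] at this
    exact_mod_cast this
  unfold G
  have h3 : q / lam * (2 * log (A lam x q)) ≤
      q / lam * (log (A lam (x + d) q) + log (A lam (x - d) q)) :=
    mul_le_mul_of_nonneg_left h2 (by positivity)
  linarith

theorem A_rpow (x : ι → ℝ) {q' : ℝ} (hq : 0 < q) (hq' : 0 < q') :
    A lam x q' = ∑ p : ι × Bool, exp (lam * sg x p / q) ^ (q / q') := by
  unfold A
  apply Finset.sum_congr rfl
  intro p _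
  rw [← Real.exp_mul]
  congr 1
  field_simp

theorem G_mono (hl : 0 < lam) (hq : 0 < q) {q' : ℝ} (hqq : q ≤ q') (x : ι → ℝ) :
    G lam x q ≤ G lam x q' := by
  have hq' : 0 < q' := hq.trans_le hqq
  have hS := A_pos lam x q
  have ht : q / q' ≤ 1 := (div_le_one hq').mpr hqq
  have h1 : A lam x q ^ (q / q') ≤ A lam x q' := by
    rw [A_rpow x hq hq']
    have h2 : ∀ p : ι × Bool, A lam x q ^ (q / q') * (exp (lam * sg x p / q) / A lam x q) ≤
        exp (lam * sg x p / q) ^ (q / q') := by
      intro p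
      have h3 : exp (lam * sg x p / q) / A lam x q ≤ (exp (lam * sg x p / q) / A lam x q) ^ (q / q') := by
        conv_lhs => rw [← Real.rpow_one (exp (lam * sg x p / q) / A lam x q)]
        apply Real.rpow_le_rpow_of_exponent_ge (div_pos (exp_pos _) hS) _ ht
        rw [div_le_one hS]
        exact Finset.single_le_sum (f := fun p : ι × Bool => exp (lam * sg x p / q))
          (fun p _ => (exp_pos _).le) (Finset.mem_univ p)
      calc A lam x q ^ (q / q') * (exp (lam * sg x p / q) / A lam x q)
          ≤ A lam x q ^ (q / q') * (exp (lam * sg x p / q) / A lam x q) ^ (q / q') :=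
            mul_le_mul_of_nonneg_left h3 (Real.rpow_nonneg hS.le _)
        _ = exp (lam * sg x p / q) ^ (q / q') := by
          rw [← Real.mul_rpow hS.le (div_pos (exp_pos _) hS).le]
          congr 1
          field_simp
    calc A lam x q ^ (q / q') = ∑ p : ι × Bool,
          A lam x q ^ (q / q') * (exp (lam * sg x p / q) / A lam x q) := by
          rw [← Finset.mul_sum, ← Finset.sum_div]
          change A lam x q ^ (q / q') = A lam x q ^ (q / q') * (A lam x q / A lam x q)
          rw [div_self hS.ne', mul_one]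
      _ ≤ _ := Finset.sum_le_sum fun p _ => h2 p
  have h2 : q / q' * log (A lam x q) ≤ log (A lam x q') := by
    rw [← Real.log_rpow hS]
    exact Real.log_le_log (Real.rpow_pos_of_pos hS _) h1
  unfold G
  calc q / lam * log (A lam x q) = q' / lam * (q / q' * log (A lam x q)) := by field_simp
    _ ≤ q' / lam * log (A lam x q') := mul_le_mul_of_nonneg_left h2 (by positivity)

/-- the number of coordinates with signs -/
noncomputable def M (ι : Type) [Fintype ι] : ℝ := Fintype.card (ι × Bool)

theorem M_pos : 0 < M ι := by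
  unfold M
  exact_mod_cast Fintype.card_pos

theorem G_incr (hl : 0 < lam) (hq : 0 < q) {q' : ℝ} (hqq : q ≤ q') (x : ι → ℝ) :
    G lam x q' ≤ G lam x q + (q' - q) * (log (M ι) / lam) := by
  have hq' : 0 < q' := hq.trans_le hqq
  have hS := A_pos lam x q
  have hM : 0 < M ι := M_pos
  have ht : q / q' ≤ 1 := (div_le_one hq').mpr hqq
  have ht0 : 0 ≤ q / q' := by positivity
  have h1 : A lam x q' ≤ M ι * (A lam x q / M ι) ^ (q / q') := by
    rw [A_rpow x hq hq']
    have h2 := (Real.concaveOn_rpow ht0 ht).le_map_sum (t := (univ : Finset (ι × Bool)))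
      (w := fun _ => (M ι)⁻¹) (p := fun p => exp (lam * sg x p / q))
      (fun _ _ => by positivity) (by
        rw [Finset.sum_const, nsmul_eq_mul]
        unfold M
        rw [Finset.card_univ]
        exact mul_inv_cancel₀ (by exact_mod_cast Fintype.card_pos.ne'))
      (fun p _ => (exp_pos _).le)
    simp only [smul_eq_mul] at h2
    rw [← Finset.mul_sum, ← Finset.mul_sum] at h2
    have h3 : (M ι)⁻¹ * ∑ p : ι × Bool, exp (lam * sg x p / q) = A lam x q / M ι := by
      unfold A
      rw [div_eq_inv_mul]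
    rw [h3] at h2
    calc ∑ p : ι × Bool, exp (lam * sg x p / q) ^ (q / q')
        = M ι * ((M ι)⁻¹ * ∑ p : ι × Bool, exp (lam * sg x p / q) ^ (q / q')) := by
          rw [← mul_assoc, mul_inv_cancel₀ hM.ne', one_mul]
      _ ≤ _ := mul_le_mul_of_nonneg_left h2 hM.le
  have h2 : log (A lam x q') ≤ log (M ι) + q / q' * (log (A lam x q) - log (M ι)) := by
    calc log (A lam x q') ≤ log (M ι * (A lam x q / M ι) ^ (q / q')) :=
          Real.log_le_log (A_pos _ _ _) h1
      _ = _ := by
        rw [Real.log_mul hM.ne' (Real.rpow_pos_of_pos (div_pos hS hM) _).ne',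
          Real.log_rpow (div_pos hS hM), Real.log_div hS.ne' hM.ne']
  unfold G
  calc q' / lam * log (A lam x q') ≤
        q' / lam * (log (M ι) + q / q' * (log (A lam x q) - log (M ι))) :=
        mul_le_mul_of_nonneg_left h2 (by positivity)
    _ = q / lam * log (A lam x q) + (q' - q) * (log (M ι) / lam) := by
      field_simp
      ring

/-- the choice of the parameter -/
noncomputable def Lam (ι : Type) [Fintype ι] : ℝ := Real.sqrt (log (M ι))

theorem two_le_M : 2 ≤ M ι := by
  unfold M
  rw [Fintype.card_prod, Fintype.card_bool]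
  have : 1 ≤ Fintype.card ι := Fintype.card_pos
  have h : 2 ≤ Fintype.card ι * 2 := by omega
  exact_mod_cast h

theorem log_M_pos : 0.69 ≤ log (M ι) := by
  have h1 : log 2 ≤ log (M ι) := Real.log_le_log (by norm_num) two_le_M
  have := Real.log_two_gt_d9
  linarith

theorem Lam_sq : Lam ι ^ 2 = log (M ι) := Real.sq_sqrt (by have := log_M_pos (ι := ι); linarith)

theorem Lam_pos : 1 / 3 ≤ Lam ι := by
  unfold Lam
  apply Real.le_sqrt_of_sq_le
  have := log_M_pos (ι := ι)
  linarith

/-- the Lyapunov function -/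
noncomputable def Phi (x : ι → ℝ) (q : ℝ) : ℝ :=
  G (Lam ι) x q ^ 2 - 4 * Lam ι * q * G (Lam ι) x q - q ^ 2

/-- ONE STEP of a dyadic martingale -/
theorem Phi_step (hq : 0 < q) (x d : ι → ℝ) {δ : ℝ} (hδ : 0 ≤ δ) (hd : ∀ i, |d i| ≤ δ) :
    (Phi (x + d) (Real.sqrt (q ^ 2 + δ ^ 2)) + Phi (x - d) (Real.sqrt (q ^ 2 + δ ^ 2))) / 2 ≤
      Phi x q := by
  set L := Lam ι with hL
  have hL0 : 0 < L := lt_of_lt_of_le (by norm_num) (Lam_pos (ι := ι))
  set q' := Real.sqrt (q ^ 2 + δ ^ 2) with hq'
  have hs : q' ^ 2 = q ^ 2 + δ ^ 2 := Real.sq_sqrt (by positivity)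
  have hqq : q ≤ q' := by
    rw [hq']
    apply Real.le_sqrt_of_sq_le
    nlinarith
  have hq0 : 0 < q' := hq.trans_le hqq
  have hLL : log (M ι) / L = L := by
    rw [← Lam_sq, ← hL]
    field_simp
  set a := G L (x + d) q' with ha
  set b := G L (x - d) q' with hb
  set g := G L x q with hg
  have h1 : (a + b) / 2 ≤ G L x q' + L * δ ^ 2 / (2 * q') := G_avg hL0 hq0 x d hd
  have h2 : G L x q' ≤ g + (q' - q) * (log (M ι) / L) := G_incr hL0 hq hqq x
  rw [hLL] at h2
  have h3 : L * δ ^ 2 / (2 * q') ≤ L * (q' - q) := by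
    rw [div_le_iff₀ (by positivity)]
    have : δ ^ 2 = (q' - q) * (q' + q) := by nlinarith
    rw [this]
    have h4 : 0 ≤ L * (q' - q) := mul_nonneg hL0.le (by linarith)
    nlinarith
  have h4 : g ≤ (a + b) / 2 := (G_mono hL0 hq hqq x).trans (G_conv hL0 hq0 x d)
  have h5 : |a - b| ≤ 2 * δ := by
    have e1 : a ≤ b + 2 * δ := by
      have := G_lip hL0 hq0 (x - d) (d + d) (δ := 2 * δ) (fun i => by
        have := hd i
        rw [Pi.add_apply, ← two_mul, abs_mul]
        simp only [Nat.abs_ofNat]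
        linarith)
      have e : x - d + (d + d) = x + d := by
        funext i
        simp
      rwa [e] at this
    have e2 : b ≤ a + 2 * δ := by
      have := G_lip hL0 hq0 (x + d) (-d - d) (δ := 2 * δ) (fun i => by
        have := hd i
        have e : (-d - d) i = -(2 * d i) := by
          simp only [Pi.sub_apply, Pi.neg_apply]
          ring
        rw [e, abs_neg, abs_mul]
        simp only [Nat.abs_ofNat]
        linarith)
      have e : x + d + (-d - d) = x - d := by
        funext i
        simp only [Pi.add_apply, Pi.sub_apply, Pi.neg_apply]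
        ring
      rwa [e] at this
    rw [abs_le]
    constructor <;> linarith
  have h6 : (a ^ 2 + b ^ 2) / 2 ≤ ((a + b) / 2) ^ 2 + δ ^ 2 := by
    have : (a - b) ^ 2 ≤ (2 * δ) ^ 2 := by
      rw [← sq_abs]
      exact pow_le_pow_left₀ (abs_nonneg _) h5 2
    nlinarith
  have hg0 : 0 ≤ g := G_nonneg hL0 hq x
  set m := (a + b) / 2 with hm
  have h7 : m - g ≤ 2 * L * (q' - q) := by linarith
  have h8 : m ^ 2 - g ^ 2 ≤ 4 * L * (q' - q) * m := by
    have e1 : m ^ 2 - g ^ 2 = (m - g) * (m + g) := by ring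
    have e2 : (m - g) * (m + g) ≤ (m - g) * (2 * m) :=
      mul_le_mul_of_nonneg_left (by linarith) (by linarith)
    have e3 : (m - g) * (2 * m) ≤ 2 * L * (q' - q) * (2 * m) :=
      mul_le_mul_of_nonneg_right h7 (by linarith)
    linarith
  have h9 : q * g ≤ q * m := mul_le_mul_of_nonneg_left h4 hq.le
  have h10 : 4 * L * (q * g) ≤ 4 * L * (q * m) := mul_le_mul_of_nonneg_left h9 (by positivity)
  unfold Phi
  rw [← hL, ← ha, ← hb, ← hg]
  have e : (a ^ 2 - 4 * L * q' * a - q' ^ 2 + (b ^ 2 - 4 * L * q' * b - q' ^ 2)) / 2 =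
      (a ^ 2 + b ^ 2) / 2 - 4 * L * q' * m - q' ^ 2 := by
    rw [hm]
    ring
  rw [e, hs]
  nlinarith

/-- the starting value -/
theorem Phi_start (hq : 0 < q) (x : ι → ℝ) (hx : ∀ i, |x i| ≤ q) : Phi x q ≤ 0 := by
  have hL3 := Lam_pos (ι := ι)
  have hL0 : 0 < Lam ι := lt_of_lt_of_le (by norm_num) hL3
  have h1 : G (Lam ι) (0 + x) q ≤ G (Lam ι) 0 q + q := G_lip hL0 hq 0 x hx
  rw [zero_add] at h1
  have h2 : G (Lam ι) (0 : ι → ℝ) q = q * Lam ι := by
    unfold G A
    have e : ∀ p : ι × Bool, exp (Lam ι * sg (0 : ι → ℝ) p / q) = 1 := by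
      intro p
      have : sg (0 : ι → ℝ) p = 0 := by simp [sg]
      rw [this]
      simp
    simp only [e]
    rw [Finset.sum_const, nsmul_eq_mul, mul_one, Finset.card_univ]
    change q / Lam ι * log (M ι) = _
    rw [← Lam_sq]
    field_simp
  have h3 := G_nonneg hL0 hq x
  unfold Phi
  set g := G (Lam ι) x q with hg
  have h4 : g ≤ 4 * Lam ι * q := by nlinarith
  nlinarith

/-- the final inequality -/
theorem Phi_end (hq : 0 < q) (x : ι → ℝ) (i : ι) :
    x i ^ 2 ≤ 2 * Phi x q + (16 * log (M ι) + 2) * q ^ 2 := by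
  have hL0 : 0 < Lam ι := lt_of_lt_of_le (by norm_num) (Lam_pos (ι := ι))
  have h1 := G_ge hL0 hq x i
  have h2 : x i ^ 2 ≤ G (Lam ι) x q ^ 2 := by
    rw [← sq_abs]
    exact pow_le_pow_left₀ (abs_nonneg _) h1 2
  unfold Phi
  rw [← Lam_sq]
  nlinarith [sq_nonneg (G (Lam ι) x q - 4 * Lam ι * q)]

end Pool.Agent.helper18.HC
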