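import Pool.Agent.helper18.HC.Defs
import Pool.Agent.helper18.HC.Lse

/-!
# Dyadic martingales in one variable: recursion over the digits, vector valued square function
inequality, Doob, Pythagoras
-/

set_option autoImplicit false
set_option linter.unusedSectionVars false

namespace Pool.Agent.helper18.HC

open Finset

variable {K : ℕ}

/-- average over dyadic intervals -/
noncomputable def e (j : ℕ) (h : Dy K → ℝ) (x : Dy K) : ℝ :=
  (∑ x' ∈ cyl j x, h x') / ((cyl j x).card : ℝ)

/-- the mean value -/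
noncomputable def avg (h : Dy K → ℝ) : ℝ := (∑ x, h x) / 2 ^ K

/-- restriction to one half -/
def res (b : Bool) (h : Dy (K + 1) → ℝ) : Dy K → ℝ := fun x => h (Fin.cons b x)

theorem sum_succ (h : Dy (K + 1) → ℝ) :
    ∑ x, h x = ∑ x, res true h x + ∑ x, res false h x := by
  rw [← (Fin.consEquiv (fun _ : Fin (K + 1) => Bool)).sum_comp, Fintype.sum_prod_type]
  rw [Fintype.sum_bool]
  rfl

theorem card_Dy : Fintype.card (Dy K) = 2 ^ K := by
  simp [Dy]

theorem cyl_zero (x : Dy K) : cyl 0 x = univ := by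
  unfold cyl
  rw [Finset.filter_true_of_mem]
  intro x' _ i hi
  omega

theorem e_zero (h : Dy K → ℝ) (x : Dy K) : e 0 h x = avg h := by
  unfold e avg
  rw [cyl_zero, Finset.card_univ, card_Dy]
  push_cast
  rfl

/-- adding a first digit -/
def consE (b : Bool) : Dy K ↪ Dy (K + 1) where
  toFun x' := Fin.cons b x'
  inj' := by
    intro a c h
    have h2 := congrArg Fin.tail h
    simpa using h2

theorem consE_apply (b : Bool) (x : Dy K) : consE b x = Fin.cons b x := rfl

theorem cyl_succ (j : ℕ) (b : Bool) (x : Dy K) :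
    cyl (j + 1) (Fin.cons b x : Dy (K + 1)) = (cyl j x).map (consE b) := by
  ext z
  unfold cyl
  simp only [mem_filter, mem_univ, true_and, mem_map, consE_apply]
  constructor
  · intro h
    refine ⟨fun i => z i.succ, fun i hi => ?_, ?_⟩
    · have := h i.succ (by simpa using hi)
      simpa using this
    · have h0 := h 0 (by simp)
      simp only [Fin.cons_zero] at h0
      funext i
      refine Fin.cases ?_ (fun i => ?_) i
      · simp [h0]
      · simp
  · rintro ⟨x', hx', rfl⟩ i hi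
    revert hi
    refine Fin.cases (fun _ => by simp) (fun i hi => ?_) i
    simp only [Fin.cons_succ]
    apply hx'
    simpa using hi

theorem e_succ (j : ℕ) (h : Dy (K + 1) → ℝ) (b : Bool) (x : Dy K) :
    e (j + 1) h (Fin.cons b x) = e j (res b h) x := by
  unfold e
  rw [cyl_succ, Finset.sum_map, Finset.card_map]
  rfl

theorem avg_succ (h : Dy (K + 1) → ℝ) : avg h = (avg (res true h) + avg (res false h)) / 2 := by
  unfold avg
  rw [sum_succ, pow_succ]
  field_simp

theorem sum_zero (h : Dy 0 → ℝ) (x : Dy 0) : ∑ x, h x = h x := by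
  rw [Fintype.sum_unique]
  congr 1
  exact Subsingleton.elim _ _

theorem avg_zero (h : Dy 0 → ℝ) (x : Dy 0) : avg h = h x := by
  unfold avg
  rw [sum_zero h x]
  simp only [pow_zero, div_one]

/-! ### the vector valued inequality -/

variable {ι : Type} [Fintype ι] [Nonempty ι]

/-- the maximum of the absolute values -/
noncomputable def mx (x : ι → ℝ) : ℝ := univ.sup' univ_nonempty fun i => |x i|

theorem le_mx (x : ι → ℝ) (i : ι) : |x i| ≤ mx x :=
  Finset.le_sup' (fun i => |x i|) (mem_univ i)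

theorem mx_nonneg (x : ι → ℝ) : 0 ≤ mx x := by
  obtain ⟨i⟩ := (inferInstance : Nonempty ι)
  exact (abs_nonneg _).trans (le_mx x i)

theorem mx_le {x : ι → ℝ} {c : ℝ} (h : ∀ i, |x i| ≤ c) : mx x ≤ c :=
  Finset.sup'_le _ _ fun i _ => h i

/-- the difference of level `j+1` -/
noncomputable def df (j : ℕ) (h : Dy K → ℝ) (x : Dy K) : ℝ := e (j + 1) h x - e j h x

theorem df_succ (j : ℕ) (h : Dy (K + 1) → ℝ) (b : Bool) (x : Dy K) :
    df (j + 1) h (Fin.cons b x) = df j (res b h) x := by
  unfold df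
  rw [e_succ, e_succ]

/-- half the difference of the mean values -/
noncomputable def hd (h : Dy (K + 1) → ℝ) : ℝ := (avg (res true h) - avg (res false h)) / 2

theorem df_zero (h : Dy (K + 1) → ℝ) (b : Bool) (x : Dy K) :
    df 0 h (Fin.cons b x) = if b then hd h else -hd h := by
  unfold df hd
  rw [e_succ, e_zero, e_zero, avg_succ h]
  cases b
  · simp
    ring
  · simp
    ring

/-- sum of the differences -/
noncomputable def Ysum (h : ι → ℕ → Dy K → ℝ) (x : Dy K) : ι → ℝ :=
  fun i => ∑ j ∈ range K, df j (h i j) x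

/-- square function -/
noncomputable def Wsum (h : ι → ℕ → Dy K → ℝ) (x : Dy K) : ℝ :=
  ∑ j ∈ range K, mx (fun i => df j (h i j) x) ^ 2

theorem Wsum_nonneg (h : ι → ℕ → Dy K → ℝ) (x : Dy K) : 0 ≤ Wsum h x :=
  Finset.sum_nonneg fun _ _ => sq_nonneg _

/-- the functions of the next step -/
def nxt (b : Bool) (h : ι → ℕ → Dy (K + 1) → ℝ) : ι → ℕ → Dy K → ℝ :=
  fun i j => res b (h i (j + 1))

theorem Ysum_succ (h : ι → ℕ → Dy (K + 1) → ℝ) (b : Bool) (x : Dy K) :
    Ysum h (Fin.cons b x) =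
      (if b then (fun i => hd (h i 0)) else -(fun i => hd (h i 0))) + Ysum (nxt b h) x := by
  funext i
  unfold Ysum
  rw [Finset.sum_range_succ', Pi.add_apply, df_zero]
  have h1 : ∀ j, df (j + 1) (h i (j + 1)) (Fin.cons b x) = df j (nxt b h i j) x := fun j =>
    df_succ _ _ _ _
  simp only [h1]
  cases b
  · simp
    ring
  · simp
    ring

theorem Wsum_succ (h : ι → ℕ → Dy (K + 1) → ℝ) (b : Bool) (x : Dy K) :
    Wsum h (Fin.cons b x) = mx (fun i => hd (h i 0)) ^ 2 + Wsum (nxt b h) x := by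
  unfold Wsum
  rw [Finset.sum_range_succ']
  have h1 : ∀ j, (fun i => df (j + 1) (h i (j + 1)) (Fin.cons b x)) =
      fun i => df j (nxt b h i j) x := fun j => by
    funext i
    exact df_succ _ _ _ _
  simp only [h1]
  have h2 : mx (fun i => df 0 (h i 0) (Fin.cons b x)) = mx (fun i => hd (h i 0)) := by
    unfold mx
    congr 1
    funext i
    show |df 0 (h i 0) (Fin.cons b x)| = |hd (h i 0)|
    rw [df_zero]
    cases b <;> simp
  rw [h2]
  ring

theorem main_step : ∀ (K : ℕ) (h : ι → ℕ → Dy K → ℝ) (x0 : ι → ℝ) (q : ℝ), 0 < q →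
    ∑ x, Phi (x0 + Ysum h x) (Real.sqrt (q ^ 2 + Wsum h x)) ≤ 2 ^ K * Phi x0 q := by
  intro K
  induction K with
  | zero =>
    intro h x0 q hq
    rw [sum_zero _ default]
    have h1 : Ysum h default = 0 := by
      funext i
      simp [Ysum]
    have h2 : Wsum h default = 0 := by simp [Wsum]
    rw [h1, h2, add_zero, add_zero, Real.sqrt_sq hq.le]
    simp
  | succ K ih =>
    intro h x0 q hq
    rw [← (Fin.consEquiv (fun _ : Fin (K + 1) => Bool)).sum_comp, Fintype.sum_prod_type,
      Fintype.sum_bool]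
    set d : ι → ℝ := fun i => hd (h i 0) with hd'
    set δ := mx d with hδ
    have hδ0 : 0 ≤ δ := mx_nonneg d
    set q' := Real.sqrt (q ^ 2 + δ ^ 2) with hq'
    have hq0 : 0 < q' := Real.sqrt_pos.mpr (by positivity)
    have hs : q' ^ 2 = q ^ 2 + δ ^ 2 := Real.sq_sqrt (by positivity)
    have key : ∀ b : Bool, ∑ x : Dy K, Phi (x0 + Ysum h ((Fin.consEquiv (fun _ : Fin (K + 1) =>
        Bool)) (b, x))) (Real.sqrt (q ^ 2 + Wsum h ((Fin.consEquiv (fun _ : Fin (K + 1) =>
        Bool)) (b, x)))) ≤ 2 ^ K * Phi (x0 + if b then d else -d) q' := by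
      intro b
      refine le_trans (le_of_eq ?_) (ih (nxt b h) (x0 + if b then d else -d) q' hq0)
      apply Finset.sum_congr rfl
      intro x _
      have h1 : (Fin.consEquiv (fun _ : Fin (K + 1) => Bool)) (b, x) = Fin.cons b x := rfl
      rw [h1, Ysum_succ, Wsum_succ, hs, add_assoc, add_assoc]
    have h2 := key true
    have h3 := key false
    simp only [if_true, Bool.false_eq_true, if_false] at h2 h3
    have h4 := Phi_step hq x0 d hδ0 (fun i => le_mx d i)
    rw [← hq'] at h4
    have h5 : (2 : ℝ) ^ (K + 1) * Phi x0 q = 2 ^ K * (2 * Phi x0 q) := by ring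
    rw [h5]
    have h6 : (2 : ℝ) ^ K * (Phi (x0 + d) q' + Phi (x0 - d) q') ≤ 2 ^ K * (2 * Phi x0 q) :=
      mul_le_mul_of_nonneg_left (by linarith) (by positivity)
    rw [sub_eq_add_neg] at h6
    linarith

/-- the vector valued square function inequality -/
theorem square_ineq (h : ι → ℕ → Dy K → ℝ) (x0 : ι → ℝ) :
    ∑ x, mx (x0 + Ysum h x) ^ 2 ≤
      (16 * Real.log (M ι) + 2) * ∑ x, (mx x0 ^ 2 + Wsum h x) := by
  have hC : 0 < 16 * Real.log (M ι) + 2 := by
    have := log_M_pos (ι := ι)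
    linarith
  have main : ∀ ε : ℝ, 0 < ε → ∑ x, mx (x0 + Ysum h x) ^ 2 ≤
      (16 * Real.log (M ι) + 2) * ∑ x, (ε ^ 2 + mx x0 ^ 2 + Wsum h x) := by
    intro ε hε
    set q := Real.sqrt (ε ^ 2 + mx x0 ^ 2) with hq
    have hq0 : 0 < q := Real.sqrt_pos.mpr (by positivity)
    have hs : q ^ 2 = ε ^ 2 + mx x0 ^ 2 := Real.sq_sqrt (by positivity)
    have h1 := main_step K h x0 q hq0
    have h2 : Phi x0 q ≤ 0 := by
      apply Phi_start hq0
      intro i
      refine (le_mx x0 i).trans ?_
      rw [hq]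
      apply Real.le_sqrt_of_sq_le
      nlinarith
    have h3 : ∀ x, mx (x0 + Ysum h x) ^ 2 ≤ 2 * Phi (x0 + Ysum h x)
        (Real.sqrt (q ^ 2 + Wsum h x)) + (16 * Real.log (M ι) + 2) * (q ^ 2 + Wsum h x) := by
      intro x
      have hW := Wsum_nonneg h x
      have hq1 : 0 < Real.sqrt (q ^ 2 + Wsum h x) := Real.sqrt_pos.mpr (by positivity)
      have hs1 : Real.sqrt (q ^ 2 + Wsum h x) ^ 2 = q ^ 2 + Wsum h x :=
        Real.sq_sqrt (by positivity)
      obtain ⟨i, -, hi⟩ := Finset.exists_mem_eq_sup' (univ_nonempty (α := ι))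
        (fun i => |(x0 + Ysum h x) i|)
      have h4 : mx (x0 + Ysum h x) = |(x0 + Ysum h x) i| := hi
      rw [h4, sq_abs]
      have := Phi_end hq1 (x0 + Ysum h x) i
      rwa [hs1] at this
    calc ∑ x, mx (x0 + Ysum h x) ^ 2 ≤ ∑ x, (2 * Phi (x0 + Ysum h x)
        (Real.sqrt (q ^ 2 + Wsum h x)) + (16 * Real.log (M ι) + 2) * (q ^ 2 + Wsum h x)) :=
          Finset.sum_le_sum fun x _ => h3 x
      _ = 2 * ∑ x, Phi (x0 + Ysum h x) (Real.sqrt (q ^ 2 + Wsum h x)) +
          (16 * Real.log (M ι) + 2) * ∑ x, (q ^ 2 + Wsum h x) := by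
          rw [Finset.sum_add_distrib, Finset.mul_sum, Finset.mul_sum]
      _ ≤ (16 * Real.log (M ι) + 2) * ∑ x, (q ^ 2 + Wsum h x) := by
          have : (2 : ℝ) ^ K * Phi x0 q ≤ 0 := mul_nonpos_of_nonneg_of_nonpos (by positivity) h2
          linarith
      _ = _ := by rw [hs]
  -- let the parameter tend to zero
  have h5 : ∀ ε : ℝ, 0 < ε → ∑ x, mx (x0 + Ysum h x) ^ 2 ≤
      (16 * Real.log (M ι) + 2) * ∑ x, (mx x0 ^ 2 + Wsum h x) +
      ε ^ 2 * ((16 * Real.log (M ι) + 2) * 2 ^ K) := by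
    intro ε hε
    refine (main ε hε).trans (le_of_eq ?_)
    have : ∑ x : Dy K, (ε ^ 2 + mx x0 ^ 2 + Wsum h x) =
        ε ^ 2 * 2 ^ K + ∑ x : Dy K, (mx x0 ^ 2 + Wsum h x) := by
      simp only [add_assoc]
      rw [Finset.sum_add_distrib]
      congr 1
      rw [Finset.sum_const, Finset.card_univ, card_Dy]
      simp only [nsmul_eq_mul]
      push_cast
      ring
    rw [this]
    ring
  set c := (16 * Real.log (M ι) + 2) * 2 ^ K with hc
  have hc0 : 0 < c := by positivity
  apply le_of_forall_pos_le_add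
  intro η hη
  have h6 := h5 (Real.sqrt (η / c)) (Real.sqrt_pos.mpr (by positivity))
  rw [Real.sq_sqrt (by positivity)] at h6
  have : η / c * c = η := by field_simp
  rw [this] at h6
  exact h6

/-! ### Doob's inequality -/

/-- the maximal function, at least `m` -/
noncomputable def Mf (u : Dy K → ℝ) (m : ℝ) (y : Dy K) : ℝ :=
  max m ((range (K + 1)).sup' ⟨0, by simp⟩ fun k => e k u y)

theorem avg_nonneg {u : Dy K → ℝ} (hu : ∀ y, 0 ≤ u y) : 0 ≤ avg u := by
  unfold avg
  exact div_nonneg (Finset.sum_nonneg fun y _ => hu y) (by positivity)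

theorem Mf_succ (u : Dy (K + 1) → ℝ) {m : ℝ} (hm : avg u ≤ m) (b : Bool) (y : Dy K) :
    Mf u m (Fin.cons b y) = Mf (res b u) (max m (avg (res b u))) y := by
  unfold Mf
  apply le_antisymm
  · apply max_le
    · exact (le_max_left _ _).trans (le_max_left _ _)
    · apply Finset.sup'_le
      intro k hk
      rcases k with _ | k
      · rw [e_zero]
        exact hm.trans ((le_max_left _ _).trans (le_max_left _ _))
      · rw [e_succ]
        refine le_trans ?_ (le_max_right _ _)
        exact Finset.le_sup' (fun k => e k (res b u) y) (by simp at hk ⊢; omega)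
  · apply max_le
    · apply max_le (le_max_left _ _)
      refine le_trans ?_ (le_max_right _ _)
      have h1 : avg (res b u) = e (0 + 1) u (Fin.cons b y) := by rw [e_succ, e_zero]
      rw [h1]
      exact Finset.le_sup' (fun k => e k u (Fin.cons b y)) (by simp)
    · apply Finset.sup'_le
      intro k hk
      refine le_trans ?_ (le_max_right _ _)
      rw [← e_succ]
      exact Finset.le_sup' (fun k => e k u (Fin.cons b y)) (by simp at hk ⊢; omega)

theorem doob_step : ∀ (K : ℕ) (u : Dy K → ℝ) (m : ℝ), (∀ y, 0 ≤ u y) → avg u ≤ m →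
    ∑ y, (Mf u m y ^ 2 - 2 * Mf u m y * u y) ≤ 2 ^ K * (m ^ 2 - 2 * m * avg u) := by
  intro K
  induction K with
  | zero =>
    intro u m hu hm
    rw [sum_zero _ default]
    have h1 : Mf u m default = m := by
      unfold Mf
      apply max_eq_left
      apply Finset.sup'_le
      intro k hk
      have : k = 0 := by simpa using hk
      subst this
      rw [e_zero]
      exact hm
    rw [h1, avg_zero u default]
    simp
  | succ K ih =>
    intro u m hu hm
    rw [← (Fin.consEquiv (fun _ : Fin (K + 1) => Bool)).sum_comp, Fintype.sum_prod_type,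
      Fintype.sum_bool]
    have hav := avg_succ u
    have key : ∀ b : Bool, ∑ y : Dy K, (Mf u m ((Fin.consEquiv (fun _ : Fin (K + 1) =>
        Bool)) (b, y)) ^ 2 - 2 * Mf u m ((Fin.consEquiv (fun _ : Fin (K + 1) =>
        Bool)) (b, y)) * u ((Fin.consEquiv (fun _ : Fin (K + 1) => Bool)) (b, y))) ≤
        2 ^ K * (m ^ 2 - 2 * m * avg (res b u)) := by
      intro b
      have h1 := ih (res b u) (max m (avg (res b u))) (fun y => hu _) (le_max_right _ _)
      have h2 : ∑ y : Dy K, (Mf u m ((Fin.consEquiv (fun _ : Fin (K + 1) =>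
        Bool)) (b, y)) ^ 2 - 2 * Mf u m ((Fin.consEquiv (fun _ : Fin (K + 1) =>
        Bool)) (b, y)) * u ((Fin.consEquiv (fun _ : Fin (K + 1) => Bool)) (b, y))) =
          ∑ y : Dy K, (Mf (res b u) (max m (avg (res b u))) y ^ 2 -
            2 * Mf (res b u) (max m (avg (res b u))) y * res b u y) := by
        apply Finset.sum_congr rfl
        intro y _
        have h3 : (Fin.consEquiv (fun _ : Fin (K + 1) => Bool)) (b, y) = Fin.cons b y := rfl
        rw [h3, Mf_succ u hm]
        rfl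
      rw [h2]
      refine h1.trans (mul_le_mul_of_nonneg_left ?_ (by positivity))
      rcases le_total m (avg (res b u)) with h4 | h4
      · rw [max_eq_right h4]
        nlinarith [sq_nonneg (m - avg (res b u))]
      · rw [max_eq_left h4]
    have h2 := key true
    have h3 := key false
    have h5 : (2 : ℝ) ^ (K + 1) * (m ^ 2 - 2 * m * avg u) =
        2 ^ K * (m ^ 2 - 2 * m * avg (res true u)) + 2 ^ K * (m ^ 2 - 2 * m * avg (res false u)) := by
      rw [hav]
      ring
    rw [h5]
    linarith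

theorem doob {u : Dy K → ℝ} (hu : ∀ y, 0 ≤ u y) :
    ∑ y, Mf u (avg u) y ^ 2 ≤ 4 * ∑ y, u y ^ 2 := by
  have h1 := doob_step K u (avg u) hu le_rfl
  have h2 : (2 : ℝ) ^ K * (avg u ^ 2 - 2 * avg u * avg u) ≤ 0 := by
    apply mul_nonpos_of_nonneg_of_nonpos (by positivity)
    nlinarith [sq_nonneg (avg u)]
  have h3 : ∀ y, Mf u (avg u) y ^ 2 ≤
      2 * (Mf u (avg u) y ^ 2 - 2 * Mf u (avg u) y * u y) + 4 * u y ^ 2 := by
    intro y
    nlinarith [sq_nonneg (Mf u (avg u) y - 2 * u y)]
  calc ∑ y, Mf u (avg u) y ^ 2 ≤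
      ∑ y, (2 * (Mf u (avg u) y ^ 2 - 2 * Mf u (avg u) y * u y) + 4 * u y ^ 2) :=
        Finset.sum_le_sum fun y _ => h3 y
    _ = 2 * ∑ y, (Mf u (avg u) y ^ 2 - 2 * Mf u (avg u) y * u y) + 4 * ∑ y, u y ^ 2 := by
        rw [Finset.sum_add_distrib, Finset.mul_sum, Finset.mul_sum]
    _ ≤ 4 * ∑ y, u y ^ 2 := by linarith

theorem e_abs_le (k : ℕ) (u : Dy K → ℝ) (y : Dy K) : |e k u y| ≤ e k (fun y => |u y|) y := by
  unfold e
  rw [abs_div, Nat.abs_cast]
  exact div_le_div_of_nonneg_right (Finset.abs_sum_le_sum_abs _ _) (by positivity)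

/-- Doob's inequality -/
theorem doob' (u : Dy K → ℝ) :
    ∑ y, ((range (K + 1)).sup' ⟨0, by simp⟩ fun k => |e k u y|) ^ 2 ≤ 4 * ∑ y, u y ^ 2 := by
  have h1 := doob (u := fun y => |u y|) (fun y => abs_nonneg _)
  simp only [sq_abs] at h1
  refine le_trans (Finset.sum_le_sum fun y _ => ?_) h1
  apply pow_le_pow_left₀
  · exact (abs_nonneg _).trans (Finset.le_sup' (fun k => |e k u y|) (b := 0) (by simp))
  · unfold Mf
    refine le_trans ?_ (le_max_right _ _)
    apply Finset.sup'_le
    intro k hk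
    exact (e_abs_le k u y).trans (Finset.le_sup' (fun k => e k (fun y => |u y|) y) hk)

/-! ### Pythagoras -/

theorem pyth : ∀ (K : ℕ) (f : Dy K → ℝ),
    2 ^ K * avg f ^ 2 + ∑ x, ∑ j ∈ range K, df j f x ^ 2 = ∑ x, f x ^ 2 := by
  intro K
  induction K with
  | zero =>
    intro f
    rw [sum_zero _ default, sum_zero _ default, avg_zero f default]
    simp
  | succ K ih =>
    intro f
    have h0 : ∀ g : Dy (K + 1) → ℝ, ∑ x, g x = ∑ x, g (Fin.cons true x) + ∑ x, g (Fin.cons false x) :=
      fun g => sum_succ g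
    rw [h0 (fun x => ∑ j ∈ range (K + 1), df j f x ^ 2), h0 (fun x => f x ^ 2)]
    have h1 : ∀ b : Bool, ∑ x : Dy K, ∑ j ∈ range (K + 1), df j f (Fin.cons b x) ^ 2 =
        2 ^ K * hd f ^ 2 + ∑ x, ∑ j ∈ range K, df j (res b f) x ^ 2 := by
      intro b
      have h2 : ∀ x : Dy K, ∑ j ∈ range (K + 1), df j f (Fin.cons b x) ^ 2 =
          hd f ^ 2 + ∑ j ∈ range K, df j (res b f) x ^ 2 := by
        intro x
        rw [Finset.sum_range_succ', df_zero]
        simp only [df_succ]
        cases b <;> simp <;> ring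
      simp only [h2]
      rw [Finset.sum_add_distrib, Finset.sum_const, Finset.card_univ, card_Dy]
      simp
    rw [h1, h1]
    have h3 := ih (res true f)
    have h4 := ih (res false f)
    change _ = ∑ x, res true f x ^ 2 + ∑ x, res false f x ^ 2
    rw [← h3, ← h4, avg_succ f]
    unfold hd
    ring

end Pool.Agent.helper18.HC
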