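import Pool.Agent.helper18.HC.One

/-!
# The maximal hyperbolic partial sum in the dyadic model
-/

set_option autoImplicit false
set_option linter.unusedSectionVars false

namespace Pool.Agent.helper18.HC

open Finset

variable {K L : ℕ}

theorem e_sum {s : Finset ℕ} (j : ℕ) (g : ℕ → Dy K → ℝ) (x : Dy K) :
    e j (fun x => ∑ k ∈ s, g k x) x = ∑ k ∈ s, e j (g k) x := by
  unfold e
  rw [Finset.sum_comm, Finset.sum_div]

theorem e_const_zero (j : ℕ) (x : Dy K) : e j (fun _ => 0) x = 0 := by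
  unfold e
  simp

theorem df_sum {s : Finset ℕ} (j : ℕ) (g : ℕ → Dy K → ℝ) (x : Dy K) :
    df j (fun x => ∑ k ∈ s, g k x) x = ∑ k ∈ s, df j (g k) x := by
  unfold df
  rw [e_sum, e_sum, Finset.sum_sub_distrib]

theorem df_const_zero (j : ℕ) (x : Dy K) : df j (fun _ => 0) x = 0 := by
  unfold df
  rw [e_const_zero, e_const_zero, sub_zero]

theorem avg_sum {s : Finset ℕ} (g : ℕ → Dy K → ℝ) :
    avg (fun x => ∑ k ∈ s, g k x) = ∑ k ∈ s, avg (g k) := by
  unfold avg
  rw [Finset.sum_comm, Finset.sum_div]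

theorem avg_const_zero : avg (fun _ : Dy K => (0 : ℝ)) = 0 := by
  unfold avg
  simp

theorem e_large {m : ℕ} (hm : K ≤ m) (u : Dy K → ℝ) (y : Dy K) : e m u y = u y := by
  unfold e
  have : cyl m y = {y} := by
    ext z
    unfold cyl
    simp only [mem_filter, mem_univ, true_and, mem_singleton]
    constructor
    · intro h
      funext i
      exact h i (lt_of_lt_of_le i.isLt hm)
    · rintro rfl i _
      rfl
  rw [this]
  simp

/-- martingale differences, one variable -/
noncomputable def d2 (k : ℕ) (u : Dy K → ℝ) (y : Dy K) : ℝ :=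
  match k with
  | 0 => e 0 u y
  | k + 1 => e (k + 1) u y - e k u y

theorem sum_d2 (m : ℕ) (u : Dy K → ℝ) (y : Dy K) : ∑ k ∈ range (m + 1), d2 k u y = e m u y := by
  induction m with
  | zero => simp [d2]
  | succ m ih =>
    rw [Finset.sum_range_succ, ih]
    simp [d2]

theorem sum_d2_if (m : ℕ) (u : Dy L → ℝ) (y : Dy L) :
    ∑ k ∈ range (L + 1), (if k ≤ m then d2 k u y else 0) = e m u y := by
  rcases le_total m L with hm | hm
  · rw [← sum_d2 m u y, ← Finset.sum_filter]
    congr 1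
    ext k
    simp only [mem_filter, mem_range]
    omega
  · have h1 : ∑ k ∈ range (L + 1), (if k ≤ m then d2 k u y else 0) =
        ∑ k ∈ range (L + 1), d2 k u y := by
      apply Finset.sum_congr rfl
      intro k hk
      rw [if_pos]
      have := Finset.mem_range.mp hk
      omega
    rw [h1, sum_d2, e_large le_rfl, e_large hm]

theorem D2_eq (k : ℕ) (f : Dy K → Dy L → ℝ) (x : Dy K) (y : Dy L) :
    D2 k f x y = d2 k (f x) y := by
  cases k <;> rfl

theorem e_comm (j k : ℕ) (f : Dy K → Dy L → ℝ) (x : Dy K) (y : Dy L) :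
    e j (fun x' => e k (f x') y) x = e k (fun y' => e j (fun x' => f x' y') x) y := by
  unfold e
  rw [← Finset.sum_div, ← Finset.sum_div, Finset.sum_comm, div_div, div_div, mul_comm]

theorem e_sub (k : ℕ) (u v : Dy L → ℝ) (y : Dy L) :
    e k (fun y' => u y' - v y') y = e k u y - e k v y := by
  unfold e
  rw [Finset.sum_sub_distrib, sub_div]

theorem df_comm (j k : ℕ) (f : Dy K → Dy L → ℝ) (x : Dy K) (y : Dy L) :
    df j (fun x' => e k (f x') y) x = e k (fun y' => df j (fun x' => f x' y') x) y := by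
  unfold df
  rw [e_comm (j + 1) k f x y, e_comm j k f x y, e_sub]

theorem avg_comm (k : ℕ) (f : Dy K → Dy L → ℝ) (y : Dy L) :
    avg (fun x' => e k (f x') y) = e k (fun y' => avg (fun x' => f x' y')) y := by
  unfold avg e
  rw [← Finset.sum_div, ← Finset.sum_div, Finset.sum_comm, div_div, div_div, mul_comm]

/-- the functions in the decomposition of the hyperbolic partial sums -/
noncomputable def hh (Λ : Finset ℕ) (f : Dy K → Dy L → ℝ) (y : Dy L) :
    {n // n ∈ Λ} → ℕ → Dy K → ℝ :=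
  fun n j x' => if j + 1 ≤ n.1 then e (n.1 - (j + 1)) (f x') y else 0

/-- the constant part -/
noncomputable def h0 (Λ : Finset ℕ) (f : Dy K → Dy L → ℝ) (y : Dy L) : {n // n ∈ Λ} → ℝ :=
  fun n => avg (fun x' => e n.1 (f x') y)

theorem hyp_eq (Λ : Finset ℕ) (f : Dy K → Dy L → ℝ) (x : Dy K) (y : Dy L) (n : {n // n ∈ Λ}) :
    HypSum n.1 f x y = (h0 Λ f y + Ysum (hh Λ f y) x) n := by
  unfold HypSum
  rw [Finset.sum_range_succ', add_comm, Pi.add_apply]
  congr 1
  · unfold h0
    have h1 : ∀ x', e n.1 (f x') y = ∑ k ∈ range (L + 1), (if k ≤ n.1 then d2 k (f x') y else 0) :=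
      fun x' => (sum_d2_if _ _ _).symm
    simp only [h1]
    rw [avg_sum]
    apply Finset.sum_congr rfl
    intro k _
    rw [zero_add]
    split_ifs with h2
    · change e 0 (fun x' => D2 k f x' y) x = _
      rw [e_zero]
      simp only [D2_eq]
    · rw [avg_const_zero]
  · unfold Ysum
    apply Finset.sum_congr rfl
    intro j _
    have h1 : hh Λ f y n j = fun x' => ∑ k ∈ range (L + 1),
        (if j + 1 + k ≤ n.1 then d2 k (f x') y else 0) := by
      funext x'
      unfold hh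
      split_ifs with h2
      · rw [← sum_d2_if]
        apply Finset.sum_congr rfl
        intro k _
        by_cases h3 : k ≤ n.1 - (j + 1)
        · rw [if_pos h3, if_pos (by omega)]
        · rw [if_neg h3, if_neg (by omega)]
      · symm
        apply Finset.sum_eq_zero
        intro k _
        rw [if_neg (by omega)]
    rw [h1, df_sum]
    apply Finset.sum_congr rfl
    intro k _
    split_ifs with h2
    · change df j (fun x' => D2 k f x' y) x = _
      simp only [D2_eq]
    · rw [df_const_zero]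

/-- the maximal function in the second variable -/
noncomputable def Sup2 (u : Dy L → ℝ) (y : Dy L) : ℝ :=
  (range (L + 1)).sup' ⟨0, by simp⟩ fun k => |e k u y|

theorem le_Sup2 (k : ℕ) (u : Dy L → ℝ) (y : Dy L) : |e k u y| ≤ Sup2 u y := by
  unfold Sup2
  by_cases hk : k ≤ L
  · exact Finset.le_sup' (fun k => |e k u y|) (by simp; omega)
  · rw [e_large (by omega)]
    have h1 : |u y| = |e L u y| := by rw [e_large le_rfl]
    rw [h1]
    exact Finset.le_sup' (fun k => |e k u y|) (by simp)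

theorem Sup2_nonneg (u : Dy L → ℝ) (y : Dy L) : 0 ≤ Sup2 u y :=
  (abs_nonneg _).trans (le_Sup2 0 u y)

theorem h0_le (Λ : Finset ℕ) (f : Dy K → Dy L → ℝ) (y : Dy L) [Nonempty {n // n ∈ Λ}] :
    mx (h0 Λ f y) ≤ Sup2 (fun y' => avg (fun x' => f x' y')) y := by
  apply mx_le
  intro n
  unfold h0
  rw [avg_comm]
  exact le_Sup2 _ _ _

theorem hh_le (Λ : Finset ℕ) (f : Dy K → Dy L → ℝ) (y : Dy L) [Nonempty {n // n ∈ Λ}] (j : ℕ)
    (x : Dy K) :
    mx (fun n => df j (hh Λ f y n j) x) ≤ Sup2 (fun y' => df j (fun x' => f x' y') x) y := by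
  apply mx_le
  intro n
  unfold hh
  by_cases h : j + 1 ≤ n.1
  · simp only [h, if_true]
    rw [df_comm]
    exact le_Sup2 _ _ _
  · simp only [h, if_false]
    rw [df_const_zero, abs_zero]
    exact Sup2_nonneg _ _

/-- the real valued case -/
theorem real_case (Λ : Finset ℕ) (hΛ : Λ.Nonempty) (f : Dy K → Dy L → ℝ) :
    ∑ x, ∑ y, (Λ.sup' hΛ fun n => |HypSum n f x y|) ^ 2 ≤
      (64 * Real.log (2 * Λ.card) + 8) * ∑ x, ∑ y, f x y ^ 2 := by
  have : Nonempty {n // n ∈ Λ} := by
    obtain ⟨n, hn⟩ := hΛ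
    exact ⟨⟨n, hn⟩⟩
  have hM : M {n // n ∈ Λ} = 2 * Λ.card := by
    unfold M
    rw [Fintype.card_prod, Fintype.card_bool, Fintype.card_coe]
    push_cast
    ring
  set C := 16 * Real.log (M {n // n ∈ Λ}) + 2 with hC
  have hC0 : 0 < C := by
    have := log_M_pos (ι := {n // n ∈ Λ})
    rw [hC]
    linarith
  have h1 : ∀ x y, (Λ.sup' hΛ fun n => |HypSum n f x y|) ≤ mx (h0 Λ f y + Ysum (hh Λ f y) x) := by
    intro x y
    apply Finset.sup'_le
    intro n hn
    have := le_mx (h0 Λ f y + Ysum (hh Λ f y) x) ⟨n, hn⟩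
    rwa [← hyp_eq] at this
  have h1' : ∀ x y, 0 ≤ (Λ.sup' hΛ fun n => |HypSum n f x y|) := by
    intro x y
    obtain ⟨n, hn⟩ := hΛ
    exact (abs_nonneg _).trans (Finset.le_sup' (fun n => |HypSum n f x y|) hn)
  have h2 : ∀ y, ∑ x, (Λ.sup' hΛ fun n => |HypSum n f x y|) ^ 2 ≤
      C * ∑ x : Dy K, (Sup2 (fun y' => avg (fun x' => f x' y')) y ^ 2 +
        ∑ j ∈ range K, Sup2 (fun y' => df j (fun x' => f x' y') x) y ^ 2) := by
    intro y
    calc ∑ x, (Λ.sup' hΛ fun n => |HypSum n f x y|) ^ 2 ≤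
        ∑ x, mx (h0 Λ f y + Ysum (hh Λ f y) x) ^ 2 :=
          Finset.sum_le_sum fun x _ => pow_le_pow_left₀ (h1' x y) (h1 x y) 2
      _ ≤ C * ∑ x, (mx (h0 Λ f y) ^ 2 + Wsum (hh Λ f y) x) := square_ineq _ _
      _ ≤ _ := by
        apply mul_le_mul_of_nonneg_left _ hC0.le
        apply Finset.sum_le_sum
        intro x _
        apply add_le_add
        · exact pow_le_pow_left₀ (mx_nonneg _) (h0_le Λ f y) 2
        · unfold Wsum
          exact Finset.sum_le_sum fun j _ => pow_le_pow_left₀ (mx_nonneg _) (hh_le Λ f y j x) 2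
  have h3 : ∀ u : Dy L → ℝ, ∑ y, Sup2 u y ^ 2 ≤ 4 * ∑ y, u y ^ 2 := fun u => doob' u
  calc ∑ x, ∑ y, (Λ.sup' hΛ fun n => |HypSum n f x y|) ^ 2
      = ∑ y, ∑ x, (Λ.sup' hΛ fun n => |HypSum n f x y|) ^ 2 := Finset.sum_comm
    _ ≤ ∑ y, C * ∑ x : Dy K, (Sup2 (fun y' => avg (fun x' => f x' y')) y ^ 2 +
        ∑ j ∈ range K, Sup2 (fun y' => df j (fun x' => f x' y') x) y ^ 2) :=
        Finset.sum_le_sum fun y _ => h2 y
    _ = C * ∑ x : Dy K, (∑ y, Sup2 (fun y' => avg (fun x' => f x' y')) y ^ 2 +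
        ∑ j ∈ range K, ∑ y, Sup2 (fun y' => df j (fun x' => f x' y') x) y ^ 2) := by
        rw [← Finset.mul_sum, Finset.sum_comm]
        congr 1
        apply Finset.sum_congr rfl
        intro x _
        rw [Finset.sum_add_distrib]
        congr 1
        exact Finset.sum_comm
    _ ≤ C * ∑ x : Dy K, (4 * ∑ y, (avg (fun x' => f x' y)) ^ 2 +
        ∑ j ∈ range K, 4 * ∑ y, (df j (fun x' => f x' y) x) ^ 2) := by
        apply mul_le_mul_of_nonneg_left _ hC0.le
        apply Finset.sum_le_sum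
        intro x _
        exact add_le_add (h3 _) (Finset.sum_le_sum fun j _ => h3 _)
    _ = C * (4 * ∑ y, (2 ^ K * avg (fun x' => f x' y) ^ 2 +
        ∑ x : Dy K, ∑ j ∈ range K, (df j (fun x' => f x' y) x) ^ 2)) := by
        congr 1
        rw [Finset.sum_add_distrib, Finset.sum_const, Finset.card_univ, card_Dy,
          Finset.sum_add_distrib, mul_add]
        congr 1
        · rw [nsmul_eq_mul, ← Finset.mul_sum]
          push_cast
          ring
        · simp only [Finset.mul_sum]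
          rw [Finset.sum_comm (s := (univ : Finset (Dy L))) (t := (univ : Finset (Dy K)))]
          exact Finset.sum_congr rfl fun x _ => Finset.sum_comm
    _ = C * (4 * ∑ y, ∑ x, f x y ^ 2) := by
        congr 2
        apply Finset.sum_congr rfl
        intro y _
        exact pyth K (fun x' => f x' y)
    _ = (64 * Real.log (2 * Λ.card) + 8) * ∑ x, ∑ y, f x y ^ 2 := by
        rw [Finset.sum_comm, hC, hM]
        ring

/-! ### complex values -/

theorem re_E1 (j : ℕ) (f : Dy K → Dy L → ℂ) (x : Dy K) (y : Dy L) :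
    (E1 j f x y).re = E1 j (fun x y => (f x y).re) x y := by
  unfold E1
  rw [← Complex.re_sum, ← Complex.ofReal_natCast, Complex.div_ofReal_re]

theorem im_E1 (j : ℕ) (f : Dy K → Dy L → ℂ) (x : Dy K) (y : Dy L) :
    (E1 j f x y).im = E1 j (fun x y => (f x y).im) x y := by
  unfold E1
  rw [← Complex.im_sum, ← Complex.ofReal_natCast, Complex.div_ofReal_im]

theorem re_E2 (j : ℕ) (f : Dy K → Dy L → ℂ) (x : Dy K) (y : Dy L) :
    (E2 j f x y).re = E2 j (fun x y => (f x y).re) x y := by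
  unfold E2
  rw [← Complex.re_sum, ← Complex.ofReal_natCast, Complex.div_ofReal_re]

theorem im_E2 (j : ℕ) (f : Dy K → Dy L → ℂ) (x : Dy K) (y : Dy L) :
    (E2 j f x y).im = E2 j (fun x y => (f x y).im) x y := by
  unfold E2
  rw [← Complex.im_sum, ← Complex.ofReal_natCast, Complex.div_ofReal_im]

theorem re_D1 (j : ℕ) (f : Dy K → Dy L → ℂ) (x : Dy K) (y : Dy L) :
    (D1 j f x y).re = D1 j (fun x y => (f x y).re) x y := by
  cases j with
  | zero => exact re_E1 _ _ _ _
  | succ j =>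
    unfold D1
    rw [Complex.sub_re, re_E1, re_E1]

theorem im_D1 (j : ℕ) (f : Dy K → Dy L → ℂ) (x : Dy K) (y : Dy L) :
    (D1 j f x y).im = D1 j (fun x y => (f x y).im) x y := by
  cases j with
  | zero => exact im_E1 _ _ _ _
  | succ j =>
    unfold D1
    rw [Complex.sub_im, im_E1, im_E1]

theorem re_D2 (j : ℕ) (f : Dy K → Dy L → ℂ) (x : Dy K) (y : Dy L) :
    (D2 j f x y).re = D2 j (fun x y => (f x y).re) x y := by
  cases j with
  | zero => exact re_E2 _ _ _ _
  | succ j =>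
    unfold D2
    rw [Complex.sub_re, re_E2, re_E2]

theorem im_D2 (j : ℕ) (f : Dy K → Dy L → ℂ) (x : Dy K) (y : Dy L) :
    (D2 j f x y).im = D2 j (fun x y => (f x y).im) x y := by
  cases j with
  | zero => exact im_E2 _ _ _ _
  | succ j =>
    unfold D2
    rw [Complex.sub_im, im_E2, im_E2]

theorem re_hyp (n : ℕ) (f : Dy K → Dy L → ℂ) (x : Dy K) (y : Dy L) :
    (HypSum n f x y).re = HypSum n (fun x y => (f x y).re) x y := by
  unfold HypSum
  rw [Complex.re_sum]
  apply Finset.sum_congr rfl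
  intro j _
  rw [Complex.re_sum]
  apply Finset.sum_congr rfl
  intro k _
  split_ifs
  · rw [re_D1]
    simp only [re_D2]
  · rfl

theorem im_hyp (n : ℕ) (f : Dy K → Dy L → ℂ) (x : Dy K) (y : Dy L) :
    (HypSum n f x y).im = HypSum n (fun x y => (f x y).im) x y := by
  unfold HypSum
  rw [Complex.im_sum]
  apply Finset.sum_congr rfl
  intro j _
  rw [Complex.im_sum]
  apply Finset.sum_congr rfl
  intro k _
  split_ifs
  · rw [im_D1]
    simp only [im_D2]
  · rfl

/-- the complex valued case -/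
theorem complex_case (Λ : Finset ℕ) (hΛ : Λ.Nonempty) (f : Dy K → Dy L → ℂ) :
    ∑ x, ∑ y, (Λ.sup' hΛ fun n => ‖HypSum n f x y‖) ^ 2 ≤
      (64 * Real.log (2 * Λ.card) + 8) * ∑ x, ∑ y, ‖f x y‖ ^ 2 := by
  have h1 : ∀ x y, (Λ.sup' hΛ fun n => ‖HypSum n f x y‖) ^ 2 ≤
      (Λ.sup' hΛ fun n => |HypSum n (fun x y => (f x y).re) x y|) ^ 2 +
      (Λ.sup' hΛ fun n => |HypSum n (fun x y => (f x y).im) x y|) ^ 2 := by
    intro x y
    obtain ⟨n, hn, he⟩ := Finset.exists_mem_eq_sup' hΛ (fun n => ‖HypSum n f x y‖)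
    rw [he, Complex.sq_norm, Complex.normSq_apply, re_hyp, im_hyp]
    have h2 := Finset.le_sup' (fun n => |HypSum n (fun x y => (f x y).re) x y|) hn
    have h3 := Finset.le_sup' (fun n => |HypSum n (fun x y => (f x y).im) x y|) hn
    have h4 := pow_le_pow_left₀ (abs_nonneg _) h2 2
    have h5 := pow_le_pow_left₀ (abs_nonneg _) h3 2
    rw [sq_abs] at h4 h5
    nlinarith
  have h2 := real_case Λ hΛ (fun x y => (f x y).re)
  have h3 := real_case Λ hΛ (fun x y => (f x y).im)
  calc ∑ x, ∑ y, (Λ.sup' hΛ fun n => ‖HypSum n f x y‖) ^ 2 ≤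
      ∑ x, ∑ y, ((Λ.sup' hΛ fun n => |HypSum n (fun x y => (f x y).re) x y|) ^ 2 +
      (Λ.sup' hΛ fun n => |HypSum n (fun x y => (f x y).im) x y|) ^ 2) :=
        Finset.sum_le_sum fun x _ => Finset.sum_le_sum fun y _ => h1 x y
    _ = ∑ x, ∑ y, (Λ.sup' hΛ fun n => |HypSum n (fun x y => (f x y).re) x y|) ^ 2 +
      ∑ x, ∑ y, (Λ.sup' hΛ fun n => |HypSum n (fun x y => (f x y).im) x y|) ^ 2 := by
        simp only [Finset.sum_add_distrib]
    _ ≤ (64 * Real.log (2 * Λ.card) + 8) * ∑ x, ∑ y, (f x y).re ^ 2 +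
        (64 * Real.log (2 * Λ.card) + 8) * ∑ x, ∑ y, (f x y).im ^ 2 := add_le_add h2 h3
    _ = (64 * Real.log (2 * Λ.card) + 8) * ∑ x, ∑ y, ‖f x y‖ ^ 2 := by
        rw [← mul_add, ← Finset.sum_add_distrib]
        congr 1
        apply Finset.sum_congr rfl
        intro x _
        rw [← Finset.sum_add_distrib]
        apply Finset.sum_congr rfl
        intro y _
        rw [Complex.sq_norm, Complex.normSq_apply]
        ring

end Pool.Agent.helper18.HC
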